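import Pool.Agent.Lib_MP_22d2c8_sym.Sub

/-!
# Circuits of bounded sharing depth cannot approximate an explicit function with linearly many wires

The circuits have gates of unbounded fan-in, one output, and read the input bits as often as they
like. A gate is small if its value is determined by `t` and at most `K` of the bits of `x` and `y`,
otherwise it is big. A gate is shared if at least two wires lead from it to big gates. The function is
`f_n(x, y, t) = ∑_(i, j < n) t_(i + j) x_i y_j` modulo 2, with `4 n - 1` input bits.

Every big gate computes a symmetric function of its sources, or a function with at most `w`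
subfunctions on each set of its arguments, where `w ^ (log n + 1) ≤ 2 ^ (n / q)` (for instance an
arbitrary function of at most `n / (2 q log n)` arguments). If the number of wires into big gates is at
most `c n`, and if one can delete `n / q` gates such that every directed path of the remaining big
gates contains at most `d` shared gates, then for large `n` the circuit agrees with `f_n` on at most a
fraction `1 / 2 + 2 ^ (- n / q)` of the inputs.
-/

namespace Pool.Agent.Results.MP_22d2c8_lc.BoundedSharing

open Pool.Agent.Lib_MP_22d2c8_sym Finset

theorem result : ∀ d K c : ℕ, ∃ q N : ℕ, 0 < q ∧ ∀ n ≥ N, ∀ w : ℕ,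
    w ^ (Nat.log 2 n + 1) ≤ 2 ^ (n / q) → ∀ C : Circuit (Inp n), C.wires K ≤ c * n →
      (∀ g, C.Big K g → Symm (C.op g) ∨ SubLE w (C.op g)) →
      ∀ X : Finset C.Gate, X.card ≤ n / q → C.SharingDepthLE K X d →
      ((univ.filter fun x : Inp n → Bool => C.val x C.out = hank x).card : ℝ) ≤
        (1 / 2 + 1 / 2 ^ (n / q)) * 2 ^ (4 * n - 1) :=
  agree_symm

end Pool.Agent.Results.MP_22d2c8_lc.BoundedSharing
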