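import Pool.Agent.Lib_MP_22d2c8_clq.CliqueBound

/-!
# The clique function and circuits with few non-monotone gates

`HasClique N κ` is the property of a graph on `N` vertices, given by the values of the edge
variables, that it has a clique with `κ` vertices. Circuits have and/or gates of any fan-in and
arbitrary gates such as NOT gates. Let the vector of the values that enter the arbitrary gates
change at most `T` times along increasing chains of inputs, and let `E = v ^ 2 * (log₂ v + 1) ^ 3`,
`2 ^ 16 * E < κ ≤ N / 2` and `2 ^ 55 * E ^ 2 ≤ N`.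

* If `2 ^ 34 * (T + 1) * E ≤ N ^ 2` then a circuit which decides `HasClique N κ` has more than
  `2 ^ v - N ^ 2` gates.
* For a probability distribution on the graphs which depends only on `N`, `κ` and `v`, every
  circuit with at most `2 ^ v - N ^ 2` gates agrees with the clique function with probability at most
  `1 / 2 + 2 ^ 32 * T * E / N ^ 2 + 2 ^ (-v)`.

Idea. Some of the vertices are selectors, and there are many arrays of vertices with a row for each
point `j` and a column for each residue modulo a prime `q`. The edges between the selectors and the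
arrays are variable, all the others are constant; a constant gadget (partial sums of a polynomial)
forces a clique of the right size to consist of a selector `α`, of the graph of a polynomial of low
degree in one array and of constant vertices. So the clique function contains the OR of about
`N ^ 2 / E` disjoint copies of the function which tells whether an array contains the graph of a
polynomial of low degree. If the arbitrary gates are frozen at a stage of the process which fills the
copies one after another with negative inputs, then the OR of the output and of the entry vertices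
with value false is computed by a monotone circuit with three more gates; this gives a small
monotone circuit for one copy or a change of the entry vector at every stage.
-/

namespace Pool.Agent.Lib_MP_22d2c8_old.CliqueFewNegations

open Pool.Agent.Lib_MP_22d2c8_clq
open Pool.Agent.Lib_MP_22d2c8_rsf (prob)

theorem result :
    (∀ (N κ s T v : ℕ) (C : Net (EdgeVar N) s), C.Decides (HasClique N κ) →
      C.EntryChangesLE T → 1 ≤ v → 2 ^ 16 * v ^ 2 * (Nat.log 2 v + 1) ^ 3 < κ → 2 * κ ≤ N →
      2 ^ 55 * v ^ 4 * (Nat.log 2 v + 1) ^ 6 ≤ N →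
      2 ^ 34 * (T + 1) * v ^ 2 * (Nat.log 2 v + 1) ^ 3 ≤ N ^ 2 → 2 ^ v < N ^ 2 + s) ∧
    (∀ N κ v : ℕ, 1 ≤ v → 2 ^ 16 * v ^ 2 * (Nat.log 2 v + 1) ^ 3 < κ → 2 * κ ≤ N →
      2 ^ 55 * v ^ 4 * (Nat.log 2 v + 1) ^ 6 ≤ N →
      ∃ (Ω : Type) (_ : Fintype Ω) (_ : Nonempty Ω) (Z : Ω → EdgeVar N → Bool),
        ∀ (s T : ℕ) (C : Net (EdgeVar N) s), N ^ 2 + s ≤ 2 ^ v → C.EntryChangesLE T →
          prob (fun ω => C.Accepts (Z ω) ↔ HasClique N κ (Z ω)) ≤
            1 / 2 + 2 ^ 32 * (T : ℝ) * v ^ 2 * (Nat.log 2 v + 1 : ℕ) ^ 3 / N ^ 2 +
              (1 / 2 : ℝ) ^ v) ∧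
    (∀ (N s : ℕ) (C : Net (EdgeVar N) s), C.EntryChangesLE (2 ^ C.entryWires - 1) ∧
      ∀ (M : ℕ) (lev : EdgeVar N ⊕ Fin s → ℕ), C.IsLevel M lev →
        C.EntryChangesLE (C.entryProd M lev - 1)) :=
  ⟨fun _ _ _ _ _ C hC hT hv h1 h2 h3 h4 => clique_bound C hC hT hv h1 h2 h3 h4,
   fun _ _ _ hv h1 h2 h3 => clique_avg hv h1 h2 h3,
   fun _ _ C => ⟨C.changes_wires, fun M lev h => C.changes_of_level M lev h⟩⟩

end Pool.Agent.Lib_MP_22d2c8_old.CliqueFewNegations
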