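import Pool.Agent.Lib_MP_22d2c8_hz.MulMost
import Pool.Agent.Lib_MP_22d2c8_few.PolyExact
import Pool.Agent.Lib_MP_22d2c8_hzc.Conv

/-!
# Multiplication: circuits have many hazards, or they are large

The gates of a circuit are arbitrary Boolean functions of any number of arguments; `W` is the number
of wires, and `log` is the integer part of the logarithm to the base 2. An output has a hazard at an
input `x` with the set `U` of unstable variables if its value does not depend on the variables in `U`
but it is unstable in the ternary evaluation.

* Integers. Let `r, M ≥ 1`, `L = log r + 6` and `2 ^ 20 L M r ^ 2 (log n + 1) ≤ n`. There are `y` and a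
  set `G` of at least `3 / 4` of the `n`-bit numbers such that every circuit for the product of two
  `n`-bit numbers with `W < n (r + 1) / (16 L)` has, for every `x` in `G`, more than
  `n M ^ r / (128 L)` hazards at the input `(x, y)` with exactly `r` unstable bits of the first factor.
* Polynomials over the field with two elements. If `2 ^ 20 M r ^ 2 (log n + 1) ≤ n` then there is `y`
  such that every circuit for the product with `W < n (r + 1) / 8` has, for every `x`, more than
  `n M ^ r / 64` hazards at the input `(x, y)` with exactly `r` unstable bits of the first factor.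
* Boolean convolution. If the values of the non-monotone gates change at most `T` times along
  increasing chains of inputs then the monotone gates have at least
  `(d + 1) (n / 2 - 2 (d + 1) d T)` wires, for `d ≥ 1` and `32 (d + 1) ^ 2 ≤ n`. Here `T = 2 ^ t - 1`
  if `t` vertices feed the non-monotone gates.
* The theorem on which these are based. Let `A k` be sets of inputs such that any `h + 1` inputs lie
  together in at most `m` of them, and let the output `k` be sensitive at the input `x` to all the
  inputs in `A k`. If the output `k` is stable at `x` whenever at most `d k` inputs in `N`, none of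
  them in `A k`, are unstable, then `∑ k, min |A k ∩ N| (h (d k + 1)) ≤ h m W` (here `h ≥ 1`,
  `d k ≥ 1` and `|A k ∩ N| > h`).

So in a circuit with `O(n)` wires a fraction `(c / log n) ^ r` of all pairs of an output and a set of
`r` bits of the first factor is a hazard at `(x, y)`, for some constants `r` and `c`. With `M = 1`:
the circuits without hazards of at most `d` unstable bits at one of these inputs have at least
`n (d + 1) / (16 (log d + 6))` wires, which is superlinear if `d` tends to infinity.

Idea. A set of inputs switches on a vertex if the vertex becomes unstable when the variables of the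
set are unstable (for the convolution: if the value of the vertex changes from 0 to 1 when the
variables of the set are set to 1, where the base point is chosen such that no small set changes a
non-monotone gate). A gate is pure for `A k` if it is switched on by more than `h` inputs and only by
inputs in `A k`. A gate is pure for at most `m` of the sets. Consider the vertices which feed the pure
gates and are not pure. If at most `d` of them are switched on by an input outside `A k` then one
small set switches all of them on, and the others are switched on by at most `h` inputs each, so there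
must be at least `|A k| / h` of them. If there are few hazards then this is applied to a random set of
inputs of density `1 / M`, which contains no hazard of half of the outputs. For the products the sets
`A k` are the translates of a set of residues of which any two translates have a small intersection.
The factor `y` is so sparse that a change of at most `r` bits of `x` at positions divisible by `L`
changes every block of `L` digits of `x * y` by at most `r`, and for most `x` most of the blocks of
`x * y` are not close to `0` or `2 ^ L`, so that there are no carries.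
-/

namespace Pool.Agent.Results.MP_22d2c8_lc.HazardsNegations

open Pool.Agent.Lib_MP_22d2c8_hz
open Finset

theorem result :
    (∀ n r M : ℕ, 1 ≤ r → 1 ≤ M →
      2 ^ 20 * M * r ^ 2 * (Nat.log 2 n + 1) * (Nat.log 2 r + 6) ≤ n →
      ∃ (y : Fin n → Bool) (G : Finset (Fin n → Bool)), 3 * 2 ^ n ≤ 4 * G.card ∧
        ∀ C : Circuit (Fin n ⊕ Fin n) (Fin (2 * n)), C.MulNat →
          ∀ x ∈ G, 128 * (Nat.log 2 r + 6) * C.hazards x y r ≤ n * M ^ r →
            n * (r + 1) ≤ 16 * (Nat.log 2 r + 6) * C.wires ∧
              ((∀ g, C.ar g ≤ 2) → n * r ≤ 16 * (Nat.log 2 r + 6) * C.size)) ∧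
    (∀ n r M : ℕ, 1 ≤ r → 1 ≤ M → 2 ^ 20 * M * r ^ 2 * (Nat.log 2 n + 1) ≤ n →
      ∃ y : Fin n → Bool, ∀ C : Circuit (Fin n ⊕ Fin n) (Fin (2 * n)), C.MulPoly →
        ∀ x : Fin n → Bool, 64 * C.hazards x y r ≤ n * M ^ r →
          n * (r + 1) ≤ 8 * C.wires ∧ ((∀ g, C.ar g ≤ 2) → n * r ≤ 8 * C.size)) ∧
    (∀ n d : ℕ, 1 ≤ d → 32 * (d + 1) ^ 2 ≤ n →
      ∀ C : Circuit (Fin n ⊕ Fin n) (Fin (2 * n)), C.Conv → ∀ T : ℕ, C.ChangesLE T →
        (d + 1) * (n / 2) ≤ C.monoWires + (d + 1) * (2 * (d + 1) * (d * T)) ∧
          ((∀ g ∈ C.monoGates, C.ar g ≤ 2) →
            d * (n / 2) ≤ C.monoGates.card + d * (2 * (d + 1) * (d * T)))) ∧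
    (∀ (ι κ : Type) [Fintype ι] (C : Circuit ι κ), C.ChangesLE (2 ^ C.entries.card - 1)) ∧
    (∀ (ι κ : Type) [Fintype ι] [DecidableEq ι] (C : Circuit ι κ) (x : ι → Bool) (N : Finset ι)
      (K : Finset κ) (A : κ → Finset ι) (d : κ → ℕ) (h m : ℕ), 1 ≤ h →
      (∀ k ∈ K, h < (A k ∩ N).card) →
      (∀ S : Finset ι, h < S.card → (K.filter fun k => S ⊆ A k).card ≤ m) →
      (∀ k ∈ K, ∀ i ∈ A k, C.val (flipAt x i) (C.out k) ≠ C.val x (C.out k)) →
      (∀ k ∈ K, 1 ≤ d k) →
      (∀ k ∈ K, ∀ U ⊆ N, U.card ≤ d k → Disjoint U (A k) →
        C.tval (unst x U) (C.out k) ≠ none) →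
      ∑ k ∈ K, min (A k ∩ N).card (h * (d k + 1)) ≤ h * (m * C.wires) ∧
        ((∀ g, C.ar g ≤ 2) →
          ∑ k ∈ K, min ((A k ∩ N).card - h) (h * d k) ≤ h * (m * C.size))) :=
  ⟨fun _ _ _ h1 h2 h3 => mul_few_most h1 h2 h3,
   fun _ _ _ h1 h2 h3 => poly_few_exact h1 h2 h3,
   fun n d h1 h2 C hC T hT => Pool.Agent.HazConv.conv_changes n d h1 h2 C hC T hT,
   fun _ _ _ C => C.changes_entries,
   fun _ _ _ _ C x N K A d _ _ he h1 h2 h3 h4 h5 => C.hazard_bound x N K A d he h1 h2 h3 h4 h5⟩

end Pool.Agent.Results.MP_22d2c8_lc.HazardsNegations
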