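import Pool.Agent.Lib_MP_22d2c8_uni.IterC

/-!
# Explicit functions without circuits of low complexity
-/

set_option autoImplicit false

namespace Pool.Agent.Results.MP_22d2c8_lc.LowComplexityCircuits

open Pool.Agent.LowComplexity

/-- For `CC = P`, `CC = NP` and every class which contains `P` and is closed under polynomial time
many-one reductions: some language of the class has, for infinitely many `n`, no circuit of size at
most `n * g n ^ k`, with at most `n - n / q` arbitrary constants at additional inputs, whose code is
described by the class with `n / g n` advice bits and adaptive queries. -/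
theorem result (CC : Set (List Bool → Bool))
    (hC : CC = N68a2faeb.P ∨ CC = N68a2faeb.NP ∨ Closed CC) (g : ℕ → ℕ) (hg : Growth g)
    (k q : ℕ) (hq : 1 ≤ q) :
    ∃ L ∈ CC, ∀ Q ∈ CC, ∀ R ∈ CC, ∃ᶠ n in Filter.atTop, ∀ (z : List Bool) (C : Circuit),
      z.length ≤ n - n / q → C.IsOn (n + z.length) → C.size (n + z.length) ≤ n * g n ^ k →
      C.ComputesWith n z L → ¬ Describes Q R n (n / g n) C.code := by
  rcases hC with rfl | rfl | hC
  · exact mainC closed_P hg k q hq
  · exact mainC closed_NP hg k q hq
  · exact mainC hC hg k q hq

end Pool.Agent.Results.MP_22d2c8_lc.LowComplexityCircuits
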