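import Pool.Agent.Lib_MP_22d2c8_oa.Final

/-!
# `n log n` wires for circuits with one level of sharing, and an inequality for all circuits

The circuits have one output, gates of unbounded fan-in, and read the input bits as often as they
like. The function is `f_n(x, y, t) = ∑_(i, j < n) t_(i + j) x_i y_j` modulo 2, with `4 n - 1` input
bits. A gate is small if its value is determined by `t` and at most `K` of the bits of `x` and `y`,
otherwise it is big. A gate is shared if at least two wires lead from it to big gates. Every big gate
has at most `w ^ (j + 1)` subfunctions on each set of `j` of its arguments; so do all linear threshold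
functions and all symmetric functions (`w = 2`) and all functions of `a` arguments (`w = 2 ^ a`).

Let `X` be a set of at most `k` gates (exceptional gates, without any restriction). If the circuit
agrees with `f_n` on at least a fraction `1 / 2 + 2 ^ (-k)` of the inputs (`k = 1`: on all inputs) then

* the number of wires into big gates, plus the number of pairs of a bit of `x` or `y` and a shared big
  gate outside `X` above it, is at least `n log (n / (q k)) / q` (this holds for all circuits);
* if from every big gate outside `X` at most `r` shared gates can be reached by paths of big gates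
  outside `X`, then the number of wires into big gates is at least `n log (n / (q k)) / (q (r + 1))`;
* if every directed path of big gates outside `X` contains at most one shared gate, then the number of
  wires into big gates is at least `n log (n / (q k)) / q`.

The constant `q` depends only on `K` and `w`.
-/

namespace Pool.Agent.Results.MP_22d2c8_lc.OneLevel

open Pool.Agent.Lib_MP_22d2c8_sym Pool.Agent.Lib_MP_22d2c8_oa Finset

theorem result :
    (∀ K w : ℕ, ∃ q : ℕ, 0 < q ∧ ∀ n k : ℕ, 1 ≤ k → ∀ C : Circuit (Inp n),
      (∀ g, C.Big K g → SubPow w (C.op g)) → ∀ X : Finset C.Gate, X.card ≤ k →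
        (1 / 2 + 1 / 2 ^ k) * 2 ^ (4 * n - 1) ≤ (agree C : ℝ) →
        (n : ℝ) * Real.log (n / (q * k)) ≤ q * (C.wires K + pairs C K X) ∧
        (∀ r : ℕ, (∀ g, C.Big K g → g ∉ X → (reach C K X g).card ≤ r) →
          (n : ℝ) * Real.log (n / (q * k)) ≤ q * ((r + 1) * C.wires K)) ∧
        (C.SharingDepthLE K X 1 → (n : ℝ) * Real.log (n / (q * k)) ≤ q * C.wires K)) ∧
    ∀ (a : ℕ) (f : (Fin a → Bool) → Bool),
      (Threshold f ∨ Symm f → SubPow 2 f) ∧ SubPow (2 ^ a) f :=
  ⟨final, fun _ f => ⟨fun h => h.elim subPow_threshold subPow_symm, subPow_arity f⟩⟩

end Pool.Agent.Results.MP_22d2c8_lc.OneLevel
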