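import Pool.Agent.Lib_MP_22d2c8_rt.LevFinal
import Pool.Agent.Lib_MP_22d2c8_rt.LamAck
import Pool.Agent.Lib_MP_22d2c8_oa.Pow

/-!
# How much reuse do small circuits need? All circuits, and superlinear bounds for few levels of reuse

The circuits have one output, gates of unbounded fan-in, any depth, and read the input bits as often as
they like. The function is `f_n(x, y, t) = ∑_(i, j < n) t_(i + j) x_i y_j` modulo 2, with `4 n - 1` input
bits. A gate is small if its value is determined by `t` and at most `K` of the bits of `x` and `y`,
otherwise it is big. A big gate is shared if at least two wires lead from it to big gates. Every big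
gate has at most `w ^ (j + 1)` subfunctions on each set of `j` of its arguments; so do all linear
threshold functions and all symmetric functions (`w = 2`) and all functions of `a` arguments
(`w = 2 ^ a`). `W` is the number of wires into big gates, `b h` the number of bits of `x` and `y` below
the gate `h`, `o h = fo h` the number of wires from `h` to big gates. `X` is a set of at most `k` gates
(exceptional gates, without any restriction), and the circuit agrees with `f_n` on at least a fraction
`1 / 2 + 2 ^ (-k)` of the inputs (`k = 1`: on all inputs). `lam 0` is the square root, `lam 1` the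
logarithm, `lam (d + 2)` counts how often `lam d` must be applied to come down to at most `1`: `lam 2` is
about `log log`, `lam 3` and `lam 4` about `log*`. With a constant `q` that depends only on `K` and `w`,
and `N = n / (q k)` rounded down, the following holds. (1), (2) and (3) hold for all circuits.

1. At every scale `D` (with `q ≤ D`, `q D ^ 2 ≤ n`, `q k D ≤ n`) the sum of `min(D, b h) min(D, o h)` over
   the shared gates outside `X`, plus `W`, is at least `D n / q`.
2. If `s` shared gates outside `X` are above more than `B` bits then
   `n [n / (q (s + k + √n))] ≤ q (B + 1) W`: superlinear if `s (B + 1) = o(n)`, with any number of levels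
   of reuse. A circuit of linear size needs `n / (c B)` shared gates above more than `B` bits, for every
   `B < √n / c`.
3. `W` plus the sum of `o h [log2 (b h / o h)]` over the shared gates outside `X` is at least
   `n log2 N / q`.
4. Let `Y0`, `Y1` be sets of gates such that every directed path of big gates outside `X ∪ Y0 ∪ Y1`
   contains at most `d` shared gates. Then the sum of `W`, of `o h b h` over `Y0` and of `b h` over `Y1` is
   at least `n lam_(d+1)(N) / (q (d + 1))`, and at least `n lam_d(N) / (q (d + 1))` if `Y1` is empty. Here
   `Y0` may be the set of all gates above at most `B` bits: they do not count for the sharing depth, for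
   the price of a factor `B + 1`.
-/

namespace Pool.Agent.Results.MP_22d2c8_lc.SharingHierarchy

open Pool.Agent.Lib_MP_22d2c8_sym Pool.Agent.Lib_MP_22d2c8_oa Pool.Agent.Lib_MP_22d2c8_rt Finset

theorem result :
    (∀ K w : ℕ, ∃ q : ℕ, 0 < q ∧ ∀ n k : ℕ, 1 ≤ k → ∀ C : Circuit (Inp n),
      (∀ g, C.Big K g → SubPow w (C.op g)) → ∀ X : Finset C.Gate, X.card ≤ k →
        (1 / 2 + 1 / 2 ^ k) * 2 ^ (4 * n - 1) ≤ (agree C : ℝ) →
        (∀ D : ℕ, q ≤ D → q * D ^ 2 ≤ n → q * k * D ≤ n → D * n ≤ q * (C.wires K +
          ∑ h ∈ shg C K X, min D (below C h).card * min D (fo C K h))) ∧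
        (∀ B : ℕ, n * (n / (q * (((shg C K X).filter fun h => B < (below C h).card).card + k +
          Nat.sqrt n))) ≤ q * ((B + 1) * C.wires K)) ∧
        n * Nat.log 2 (n / (q * k)) ≤ q * (C.wires K +
          ∑ h ∈ shg C K X, fo C K h * Nat.log 2 ((below C h).card / fo C K h)) ∧
        ∀ (Y0 Y1 : Finset C.Gate) (d : ℕ), C.SharingDepthLE K (X ∪ Y0 ∪ Y1) d →
          n * lam (d + 1) (n / (q * k)) ≤ q * (d + 1) * (C.wires K +
            ∑ h ∈ Y0, fo C K h * (below C h).card + ∑ h ∈ Y1, (below C h).card) ∧
          (Y1 = ∅ → n * lam d (n / (q * k)) ≤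
            q * (d + 1) * (C.wires K + ∑ h ∈ Y0, fo C K h * (below C h).card))) ∧
    (∀ d, Monotone (lam d) ∧ ∀ t N, ack (d / 2 + 3) t ≤ N → t < lam d N) ∧
    ∀ (a : ℕ) (f : (Fin a → Bool) → Bool),
      (Threshold f ∨ Symm f → SubPow 2 f) ∧ SubPow (2 ^ a) f :=
  ⟨reuse, fun d => ⟨lam_mono d, lam_ack d⟩,
    fun _ f => ⟨fun h => h.elim subPow_threshold subPow_symm, subPow_arity f⟩⟩

end Pool.Agent.Results.MP_22d2c8_lc.SharingHierarchy
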